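import Mathlib

/-!
# Decomposing multiple coverings by bottomless rectangles: `m_k^* ≤ 4k - 3`

The rectangles are processed by sweeping a horizontal line upwards.  At height `y` only the
rectangles with top at least `y` are alive.  We keep a colouring of some of the rectangles and, for
every colour `κ`, a set `Y κ` of maintained abscissae, such that no alive rectangle which is
uncoloured or has colour `κ` meets two of the maintained abscissae of `κ`, and such that every
coloured alive rectangle has an owner in `Y κ` and a kind (left or right), at most one per owner and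
kind.  It follows that every vertical line meets at most four alive rectangles of colour `κ`
at any height.
-/

namespace Pool.Agent.Results.MP_00bc5b_co.LinearBound

/-- A bottomless rectangle `{(x, y) : l ≤ x ≤ r, y ≤ t}` with `l ≤ r`. -/
structure BRect where
  /-- left side -/
  l : ℝ
  /-- right side -/
  r : ℝ
  /-- top side -/
  t : ℝ
  hlr : l ≤ r

/-- The set of points of a bottomless rectangle. -/
def BRect.toSet (B : BRect) : Set (ℝ × ℝ) :=
  {p | B.l ≤ p.1 ∧ p.1 ≤ B.r ∧ p.2 ≤ B.t}

open Classical in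
/-- The finite family `B` is an `m`-fold covering of the finite point set `P`: every point of `P`
lies in at least `m` members of the family. -/
def IsFoldCovering {ι : Type} [Fintype ι] (B : ι → BRect) (P : Finset (ℝ × ℝ)) (m : ℕ) : Prop :=
  ∀ p ∈ P, m ≤ (Finset.univ.filter (fun i => p ∈ (B i).toSet)).card

/-- The family `B` splits into `k` coverings of `P`: it can be partitioned into `k` subfamilies
(the colour classes of a map to `Fin k`), each of which covers every point of `P`. -/
def SplitsInto {ι : Type} (B : ι → BRect) (P : Finset (ℝ × ℝ)) (k : ℕ) : Prop :=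
  ∃ c : ι → Fin k, ∀ κ : Fin k, ∀ p ∈ P, ∃ i, c i = κ ∧ p ∈ (B i).toSet

/-- For every finite `P`, every finite `m`-fold covering of `P` by bottomless rectangles splits
into `k` coverings of `P`. -/
def IsThreshold (k m : ℕ) : Prop :=
  ∀ (ι : Type) [Fintype ι] (B : ι → BRect) (P : Finset (ℝ × ℝ)),
    IsFoldCovering B P m → SplitsInto B P k

/-- `m_k^*`: the least `m` such that every finite `m`-fold covering by bottomless rectangles splits
into `k` coverings, and `⊤` if there is no such `m`. -/
noncomputable def mStar (k : ℕ) : ℕ∞ := ⨅ (m : ℕ) (_ : IsThreshold k m), (m : ℕ∞)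

section Core

variable {ι : Type} [Fintype ι] {k : ℕ} (l r t : ι → ℝ)

/-- A state of the algorithm: a colouring of some of the rectangles, the maintained abscissae of
every colour, and for each rectangle its owner and its kind. -/
structure St (ι : Type) (k : ℕ) where
  c : ι → Option (Fin k)
  Y : Fin k → Set ℝ
  own : ι → ℝ
  kind : ι → Bool

/-- The invariant of the algorithm at height `y`. -/
structure Weak (y : ℝ) (s : St ι k) : Prop where
  sep : ∀ κ, ∀ x₁ ∈ s.Y κ, ∀ x₂ ∈ s.Y κ, x₁ < x₂ → ∀ f, y ≤ t f →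
    (s.c f = none ∨ s.c f = some κ) → l f ≤ x₁ → x₂ ≤ r f → False
  ownY : ∀ f κ, y ≤ t f → s.c f = some κ → s.own f ∈ s.Y κ
  ownL : ∀ f κ, y ≤ t f → s.c f = some κ → l f ≤ s.own f
  ownR : ∀ f κ, y ≤ t f → s.c f = some κ → s.own f ≤ r f
  domR : ∀ f κ, y ≤ t f → s.c f = some κ → s.kind f = true →
    ∀ g, y ≤ t g → s.c g = none → l g ≤ s.own f → s.own f ≤ r g → r g ≤ r f
  domL : ∀ f κ, y ≤ t f → s.c f = some κ → s.kind f = false →
    ∀ g, y ≤ t g → s.c g = none → l g ≤ s.own f → s.own f ≤ r g → l f ≤ l g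
  inj : ∀ f g κ, y ≤ t f → y ≤ t g → s.c f = some κ → s.c g = some κ →
    s.own f = s.own g → s.kind f = s.kind g → f = g

variable {l r t}

omit [Fintype ι] in
theorem Weak.mono {y y' : ℝ} (hy : y ≤ y') {s : St ι k} (h : Weak l r t y s) :
    Weak l r t y' s where
  sep κ x₁ h₁ x₂ h₂ h₁₂ f hf := h.sep κ x₁ h₁ x₂ h₂ h₁₂ f (hy.trans hf)
  ownY f κ hf := h.ownY f κ (hy.trans hf)
  ownL f κ hf := h.ownL f κ (hy.trans hf)
  ownR f κ hf := h.ownR f κ (hy.trans hf)
  domR f κ hf hc hk g hg := h.domR f κ (hy.trans hf) hc hk g (hy.trans hg)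
  domL f κ hf hc hk g hg := h.domL f κ (hy.trans hf) hc hk g (hy.trans hg)
  inj f g κ hf hg := h.inj f g κ (hy.trans hf) (hy.trans hg)

/-- The number of uncoloured rectangles. -/
noncomputable def unc (s : St ι k) : ℕ :=
  open Classical in (Finset.univ.filter (fun f => s.c f = none)).card

open Classical in
/-- Colour the rectangle `f` with `κ`, with owner `x` and kind `b`. -/
noncomputable def St.paint (s : St ι k) (f : ι) (κ : Fin k) (x : ℝ) (b : Bool) : St ι k where
  c := Function.update s.c f (some κ)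
  Y := s.Y
  own := Function.update s.own f x
  kind := Function.update s.kind f b

theorem unc_paint_lt (s : St ι k) (f : ι) (κ : Fin k) (x : ℝ) (b : Bool) (hf : s.c f = none) :
    unc (s.paint f κ x b) < unc s := by
  classical
  unfold unc
  apply Finset.card_lt_card
  rw [Finset.ssubset_iff_of_subset]
  · refine ⟨f, by simp [hf], by simp [St.paint]⟩
  · intro g hg
    simp only [Finset.mem_filter, Finset.mem_univ, true_and, St.paint] at hg ⊢
    by_cases hgf : g = f
    · subst hgf; simp at hg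
    · rwa [Function.update_of_ne hgf] at hg

omit [Fintype ι] in
theorem paint_ext (s : St ι k) (f : ι) (κ : Fin k) (x : ℝ) (b : Bool) (hf : s.c f = none) :
    ∀ g κ', s.c g = some κ' → (s.paint f κ x b).c g = some κ' := by
  classical
  intro g κ' hg
  have hgf : g ≠ f := by rintro rfl; rw [hf] at hg; cases hg
  simp only [St.paint]
  rw [Function.update_of_ne hgf]
  exact hg

omit [Fintype ι] in
theorem weak_paint {y : ℝ} {s : St ι k} (h : Weak l r t y s) {f : ι} {κ : Fin k} {x : ℝ} {b : Bool}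
    (hf : s.c f = none) (hfy : y ≤ t f) (hx : x ∈ s.Y κ) (hl : l f ≤ x) (hr : x ≤ r f)
    (hdR : b = true → ∀ g, y ≤ t g → s.c g = none → l g ≤ x → x ≤ r g → r g ≤ r f)
    (hdL : b = false → ∀ g, y ≤ t g → s.c g = none → l g ≤ x → x ≤ r g → l f ≤ l g)
    (hno : ∀ g, y ≤ t g → s.c g = some κ → s.own g = x → s.kind g = b → False) :
    Weak l r t y (s.paint f κ x b) := by
  classical
  have hc : ∀ g, (s.paint f κ x b).c g = if g = f then some κ else s.c g := by
    intro g; simp only [St.paint, Function.update_apply]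
  have ho : ∀ g, (s.paint f κ x b).own g = if g = f then x else s.own g := by
    intro g; simp only [St.paint, Function.update_apply]
  have hk : ∀ g, (s.paint f κ x b).kind g = if g = f then b else s.kind g := by
    intro g; simp only [St.paint, Function.update_apply]
  have hY : (s.paint f κ x b).Y = s.Y := rfl
  constructor
  · intro κ' x₁ h₁ x₂ h₂ h₁₂ g hg hcg
    rw [hY] at h₁ h₂
    refine h.sep κ' x₁ h₁ x₂ h₂ h₁₂ g hg ?_
    rw [hc] at hcg
    by_cases hgf : g = f
    · left; rw [hgf]; exact hf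
    · rwa [if_neg hgf] at hcg
  · intro g κ' hg hcg
    rw [hc] at hcg
    rw [hY, ho]
    by_cases hgf : g = f
    · rw [if_pos hgf] at hcg ⊢
      have : κ = κ' := by simpa using hcg
      rw [← this]; exact hx
    · rw [if_neg hgf] at hcg ⊢
      exact h.ownY g κ' hg hcg
  · intro g κ' hg hcg
    rw [hc] at hcg
    rw [ho]
    by_cases hgf : g = f
    · rw [if_pos hgf, hgf]; exact hl
    · rw [if_neg hgf] at hcg ⊢
      exact h.ownL g κ' hg hcg
  · intro g κ' hg hcg
    rw [hc] at hcg
    rw [ho]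
    by_cases hgf : g = f
    · rw [if_pos hgf, hgf]; exact hr
    · rw [if_neg hgf] at hcg ⊢
      exact h.ownR g κ' hg hcg
  · intro g κ' hg hcg hkg u hu hcu
    rw [hc] at hcg hcu
    rw [hk] at hkg
    rw [ho]
    have huf : u ≠ f := by
      rintro rfl; simp at hcu
    rw [if_neg huf] at hcu
    by_cases hgf : g = f
    · rw [if_pos hgf] at hkg ⊢
      rw [hgf]
      exact hdR hkg u hu hcu
    · rw [if_neg hgf] at hcg hkg ⊢
      exact h.domR g κ' hg hcg hkg u hu hcu
  · intro g κ' hg hcg hkg u hu hcu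
    rw [hc] at hcg hcu
    rw [hk] at hkg
    rw [ho]
    have huf : u ≠ f := by
      rintro rfl; simp at hcu
    rw [if_neg huf] at hcu
    by_cases hgf : g = f
    · rw [if_pos hgf] at hkg ⊢
      rw [hgf]
      exact hdL hkg u hu hcu
    · rw [if_neg hgf] at hcg hkg ⊢
      exact h.domL g κ' hg hcg hkg u hu hcu
  · intro g u κ' hg hu hcg hcu hogu hkgu
    rw [hc] at hcg hcu
    rw [ho, ho] at hogu
    rw [hk, hk] at hkgu
    by_cases hgf : g = f
    · by_cases huf : u = f
      · rw [hgf, huf]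
      · rw [if_pos hgf] at hcg hogu hkgu
        rw [if_neg huf] at hcu hogu hkgu
        have : κ = κ' := by simpa using hcg
        exact (hno u hu (this ▸ hcu) hogu.symm hkgu.symm).elim
    · by_cases huf : u = f
      · rw [if_neg hgf] at hcg hogu hkgu
        rw [if_pos huf] at hcu hogu hkgu
        have : κ = κ' := by simpa using hcu
        exact (hno g hg (this ▸ hcg) hogu hkgu).elim
      · rw [if_neg hgf] at hcg hogu hkgu
        rw [if_neg huf] at hcu hogu hkgu
        exact h.inj g u κ' hg hu hcg hcu hogu hkgu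

variable (l r t) in
/-- Every uncoloured alive rectangle over a maintained abscissa is dominated on the right. -/
def PR (y : ℝ) (s : St ι k) : Prop := ∀ κ, ∀ x ∈ s.Y κ, ∀ f, y ≤ t f → s.c f = none →
  l f ≤ x → x ≤ r f → ∃ g, y ≤ t g ∧ s.c g = some κ ∧ l g ≤ x ∧ x ≤ r g ∧ r f ≤ r g

variable (l r t) in
/-- Every uncoloured alive rectangle over a maintained abscissa is dominated on the left. -/
def PL (y : ℝ) (s : St ι k) : Prop := ∀ κ, ∀ x ∈ s.Y κ, ∀ f, y ≤ t f → s.c f = none →
  l f ≤ x → x ≤ r f → ∃ g, y ≤ t g ∧ s.c g = some κ ∧ l g ≤ x ∧ x ≤ r g ∧ l g ≤ l f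

/-- The restoring step. -/
theorem exists_strong (y : ℝ) (n : ℕ) : ∀ (s : St ι k), unc s ≤ n → Weak l r t y s →
    ∃ s' : St ι k, Weak l r t y s' ∧ s'.Y = s.Y ∧
      (∀ f κ, s.c f = some κ → s'.c f = some κ) ∧ PR l r t y s' ∧ PL l r t y s' := by
  classical
  induction n with
  | zero =>
    intro s hs h
    have hall : ∀ f, s.c f ≠ none := by
      intro f hf
      have : 0 < unc s := by
        unfold unc
        exact Finset.card_pos.2 ⟨f, by simp [hf]⟩
      omega
    exact ⟨s, h, rfl, fun f κ hf => hf, fun κ x _ f _ hc => (hall f hc).elim,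
      fun κ x _ f _ hc => (hall f hc).elim⟩
  | succ n ih =>
    intro s hs h
    by_cases hR : PR l r t y s
    · by_cases hL : PL l r t y s
      · exact ⟨s, h, rfl, fun f κ hf => hf, hR, hL⟩
      · unfold PL at hL
        push Not at hL
        obtain ⟨κ, x, hx, f₀, hf₀, hc₀, hl₀, hr₀, hno⟩ := hL
        -- choose the uncoloured alive rectangle over `x` with least left end
        obtain ⟨f, hfmem, hfmin⟩ := Finset.exists_min_image
          (Finset.univ.filter (fun f => y ≤ t f ∧ s.c f = none ∧ l f ≤ x ∧ x ≤ r f)) l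
          ⟨f₀, by simp [hf₀, hc₀, hl₀, hr₀]⟩
        simp only [Finset.mem_filter, Finset.mem_univ, true_and] at hfmem hfmin
        obtain ⟨hfy, hfc, hfl, hfr⟩ := hfmem
        have hw : Weak l r t y (s.paint f κ x false) := by
          refine weak_paint h hfc hfy hx hfl hfr (by simp) (fun _ g hg hcg hlg hrg => ?_) ?_
          · exact hfmin g ⟨hg, hcg, hlg, hrg⟩
          · intro g hg hcg hog hkg
            have h1 := h.domL g κ hg hcg hkg f₀ hf₀ hc₀ (by rw [hog]; exact hl₀)
              (by rw [hog]; exact hr₀)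
            have h2 := hno g hg hcg (by rw [← hog]; exact h.ownL g κ hg hcg)
              (by rw [← hog]; exact h.ownR g κ hg hcg)
            linarith
        obtain ⟨s', h1, h2, h3, h4, h5⟩ := ih (s.paint f κ x false)
          (by have := unc_paint_lt s f κ x false hfc; omega) hw
        exact ⟨s', h1, h2, fun g κ' hg => h3 g κ' (paint_ext s f κ x false hfc g κ' hg), h4, h5⟩
    · unfold PR at hR
      push Not at hR
      obtain ⟨κ, x, hx, f₀, hf₀, hc₀, hl₀, hr₀, hno⟩ := hR
      obtain ⟨f, hfmem, hfmax⟩ := Finset.exists_max_image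
        (Finset.univ.filter (fun f => y ≤ t f ∧ s.c f = none ∧ l f ≤ x ∧ x ≤ r f)) r
        ⟨f₀, by simp [hf₀, hc₀, hl₀, hr₀]⟩
      simp only [Finset.mem_filter, Finset.mem_univ, true_and] at hfmem hfmax
      obtain ⟨hfy, hfc, hfl, hfr⟩ := hfmem
      have hw : Weak l r t y (s.paint f κ x true) := by
        refine weak_paint h hfc hfy hx hfl hfr (fun _ g hg hcg hlg hrg => ?_) (by simp) ?_
        · exact hfmax g ⟨hg, hcg, hlg, hrg⟩
        · intro g hg hcg hog hkg
          have h1 := h.domR g κ hg hcg hkg f₀ hf₀ hc₀ (by rw [hog]; exact hl₀)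
            (by rw [hog]; exact hr₀)
          have h2 := hno g hg hcg (by rw [← hog]; exact h.ownL g κ hg hcg)
            (by rw [← hog]; exact h.ownR g κ hg hcg)
          linarith
      obtain ⟨s', h1, h2, h3, h4, h5⟩ := ih (s.paint f κ x true)
        (by have := unc_paint_lt s f κ x true hfc; omega) hw
      exact ⟨s', h1, h2, fun g κ' hg => h3 g κ' (paint_ext s f κ x true hfc g κ' hg), h4, h5⟩

open Classical in
/-- Every point is covered by at most four alive rectangles of a given colour. -/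
theorem count_le_four {y : ℝ} {s : St ι k} (h : Weak l r t y s) (κ : Fin k) (z : ℝ) :
    (Finset.univ.filter (fun f => y ≤ t f ∧ s.c f = some κ ∧ l f ≤ z ∧ z ≤ r f)).card ≤ 4 := by
  have hcard : (Finset.univ : Finset (Bool × Bool)).card = 4 := by decide
  rw [← hcard]
  refine Finset.card_le_card_of_injOn (fun f => (decide (s.own f < z), s.kind f))
    (fun _ _ => Finset.mem_coe.2 (Finset.mem_univ _)) ?_
  intro f hf g hg hfg
  simp only [Finset.coe_filter, Finset.mem_univ, true_and, Set.mem_ofPred_eq] at hf hg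
  obtain ⟨hf1, hf2, hf3, hf4⟩ := hf
  obtain ⟨hg1, hg2, hg3, hg4⟩ := hg
  simp only [Prod.mk.injEq, decide_eq_decide] at hfg
  obtain ⟨hside, hkind⟩ := hfg
  have oY1 := h.ownY f κ hf1 hf2
  have oY2 := h.ownY g κ hg1 hg2
  have oL1 := h.ownL f κ hf1 hf2
  have oL2 := h.ownL g κ hg1 hg2
  have oR1 := h.ownR f κ hf1 hf2
  have oR2 := h.ownR g κ hg1 hg2
  have hown : s.own f = s.own g := by
    rcases lt_trichotomy (s.own f) (s.own g) with hlt | heq | hgt
    · exfalso
      by_cases hz : s.own g < z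
      · exact h.sep κ _ oY1 _ oY2 hlt f hf1 (Or.inr hf2) oL1 (by linarith)
      · have hz' : ¬ s.own f < z := fun hh => hz (hside.1 hh)
        exact h.sep κ _ oY1 _ oY2 hlt g hg1 (Or.inr hg2) (by linarith) oR2
    · exact heq
    · exfalso
      by_cases hz : s.own f < z
      · exact h.sep κ _ oY2 _ oY1 hgt g hg1 (Or.inr hg2) oL2 (by linarith)
      · have hz' : ¬ s.own g < z := fun hh => hz (hside.2 hh)
        exact h.sep κ _ oY2 _ oY1 hgt f hf1 (Or.inr hf2) (by linarith) oR1
  exact h.inj f g κ hf1 hg1 hf2 hg2 hown hkind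

/-- The step that adds one point: starting from an invariant state at its height, all colours can
be made to appear at the point. -/
theorem exists_add_point {x y : ℝ} {s : St ι k} (h : Weak l r t y s)
    (hcov : open Classical in 4 * (k - 1) <
      (Finset.univ.filter (fun f => l f ≤ x ∧ x ≤ r f ∧ y ≤ t f)).card) :
    ∃ s' : St ι k, Weak l r t y s' ∧ (∀ f κ, s.c f = some κ → s'.c f = some κ) ∧
      ∀ κ, ∃ f, s'.c f = some κ ∧ l f ≤ x ∧ x ≤ r f ∧ y ≤ t f := by
  classical
  obtain ⟨s₁, hw₁, -, hext₁, hR₁, hL₁⟩ := exists_strong y (unc s) s le_rfl h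
  -- the colours missing at the point
  set missing : Fin k → Prop :=
    fun κ => ∀ f, s₁.c f = some κ → l f ≤ x → x ≤ r f → y ≤ t f → False with hmissing
  let s₂ : St ι k := ⟨s₁.c, fun κ => if missing κ then insert x (s₁.Y κ) else s₁.Y κ, s₁.own,
    s₁.kind⟩
  have hsubY : ∀ κ, s₁.Y κ ⊆ s₂.Y κ := by
    intro κ z hz
    simp only [s₂]
    split_ifs
    · exact Set.mem_insert_of_mem _ hz
    · exact hz
  have hw₂ : Weak l r t y s₂ := by
    constructor
    · intro κ x₁ h₁ x₂ h₂ h₁₂ f hf hc hlf hrf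
      simp only [s₂] at h₁ h₂ hc
      by_cases hm : missing κ
      · rw [if_pos hm] at h₁ h₂
        rcases h₁ with rfl | h₁
        · rcases h₂ with rfl | h₂
          · exact lt_irrefl _ h₁₂
          · -- the new abscissa is on the left
            rcases hc with hc | hc
            · obtain ⟨g, hg1, hg2, hg3, hg4, hg5⟩ := hL₁ κ x₂ h₂ f hf hc (by linarith) hrf
              exact hm g hg2 (by linarith) (by linarith) hg1
            · exact hm f hc hlf (by linarith) hf
        · rcases h₂ with rfl | h₂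
          · rcases hc with hc | hc
            · obtain ⟨g, hg1, hg2, hg3, hg4, hg5⟩ := hR₁ κ x₁ h₁ f hf hc hlf (by linarith)
              exact hm g hg2 (by linarith) (by linarith) hg1
            · exact hm f hc (by linarith) hrf hf
          · exact hw₁.sep κ x₁ h₁ x₂ h₂ h₁₂ f hf hc hlf hrf
      · rw [if_neg hm] at h₁ h₂
        exact hw₁.sep κ x₁ h₁ x₂ h₂ h₁₂ f hf hc hlf hrf
    · intro f κ hf hc
      exact hsubY κ (hw₁.ownY f κ hf hc)
    · exact hw₁.ownL
    · exact hw₁.ownR
    · exact hw₁.domR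
    · exact hw₁.domL
    · exact hw₁.inj
  obtain ⟨s₃, hw₃, hY₃, hext₃, hR₃, hL₃⟩ := exists_strong y (unc s₂) s₂ le_rfl hw₂
  have hext : ∀ f κ, s₁.c f = some κ → s₃.c f = some κ := fun f κ hf => hext₃ f κ hf
  refine ⟨s₃, hw₃, fun f κ hf => hext f κ (hext₁ f κ hf), ?_⟩
  intro κ
  by_contra hno
  push Not at hno
  have hno' : ∀ f, s₃.c f = some κ → l f ≤ x → x ≤ r f → y ≤ t f → False := by
    intro f h1 h2 h3 h4
    exact absurd h4 (not_le.2 (hno f h1 h2 h3))
  have hm : missing κ := fun f hf => hno' f (hext f κ hf)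
  have hxY : x ∈ s₃.Y κ := by
    rw [hY₃]
    simp only [s₂]
    rw [if_pos hm]
    exact Set.mem_insert _ _
  -- all rectangles over the point are coloured
  have hallc : ∀ f, l f ≤ x → x ≤ r f → y ≤ t f → s₃.c f ≠ none := by
    intro f h1 h2 h3 hc
    obtain ⟨g, hg1, hg2, hg3, hg4, -⟩ := hR₃ κ x hxY f h3 hc h1 h2
    exact hno' g hg2 hg3 hg4 hg1
  have hsub : (Finset.univ.filter (fun f => l f ≤ x ∧ x ≤ r f ∧ y ≤ t f)) ⊆
      (Finset.univ.erase κ).biUnion (fun κ' =>
        Finset.univ.filter (fun f => y ≤ t f ∧ s₃.c f = some κ' ∧ l f ≤ x ∧ x ≤ r f)) := by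
    intro f hf
    simp only [Finset.mem_filter, Finset.mem_univ, true_and] at hf
    obtain ⟨h1, h2, h3⟩ := hf
    obtain ⟨κ', hκ'⟩ := Option.ne_none_iff_exists'.1 (hallc f h1 h2 h3)
    simp only [Finset.mem_biUnion, Finset.mem_erase, Finset.mem_univ, and_true,
      Finset.mem_filter, true_and]
    refine ⟨κ', ?_, h3, hκ', h1, h2⟩
    rintro rfl
    exact hno' f hκ' h1 h2 h3
  have hle := Finset.card_le_card hsub
  have hle2 := Finset.card_biUnion_le_card_mul (Finset.univ.erase κ) (fun κ' =>
        Finset.univ.filter (fun f => y ≤ t f ∧ s₃.c f = some κ' ∧ l f ≤ x ∧ x ≤ r f)) 4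
        (fun κ' _ => count_le_four hw₃ κ' x)
  rw [Finset.card_erase_of_mem (Finset.mem_univ _), Finset.card_univ, Fintype.card_fin] at hle2
  omega

/-- The colouring theorem for families of intervals with heights. -/
theorem exists_state (P : Finset (ℝ × ℝ))
    (hcov : ∀ p ∈ P, open Classical in 4 * (k - 1) <
      (Finset.univ.filter (fun f => l f ≤ p.1 ∧ p.1 ≤ r f ∧ p.2 ≤ t f)).card) :
    ∃ s : St ι k, (∀ y, (∀ p ∈ P, p.2 ≤ y) → Weak l r t y s) ∧
      ∀ p ∈ P, ∀ κ, ∃ f, s.c f = some κ ∧ l f ≤ p.1 ∧ p.1 ≤ r f ∧ p.2 ≤ t f := by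
  classical
  induction P using Finset.induction_on_max_value (fun p : ℝ × ℝ => p.2) with
  | empty =>
    refine ⟨⟨fun _ => none, fun _ => ∅, fun _ => 0, fun _ => false⟩, ?_, by simp⟩
    intro y _
    constructor <;> simp
  | insert a P ha hmax ih =>
    obtain ⟨s, hs1, hs2⟩ := ih (fun p hp => hcov p (Finset.mem_insert_of_mem hp))
    obtain ⟨s', hw, hext, hall⟩ := exists_add_point (x := a.1) (hs1 a.2 hmax)
      (hcov a (Finset.mem_insert_self _ _))
    refine ⟨s', fun y hy => hw.mono (hy a (Finset.mem_insert_self _ _)), ?_⟩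
    intro p hp κ
    rcases Finset.mem_insert.1 hp with rfl | hp
    · exact hall κ
    · obtain ⟨f, hf, h2⟩ := hs2 p hp κ
      exact ⟨f, hext f κ hf, h2⟩

end Core

/-- `m_k^* ≤ 4k - 3` for every `k ≥ 1`; in particular `m_k^* = O(k)`. -/
theorem isThreshold {k : ℕ} (hk : 1 ≤ k) : IsThreshold k (4 * k - 3) := by
  classical
  intro ι _ B P hP
  have key : ∀ p : ℝ × ℝ, (Finset.univ.filter
        (fun f => (B f).l ≤ p.1 ∧ p.1 ≤ (B f).r ∧ p.2 ≤ (B f).t)) =
      Finset.univ.filter (fun i => p ∈ (B i).toSet) := by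
    intro p
    ext f
    simp [BRect.toSet]
  obtain ⟨s, -, hs⟩ := exists_state (k := k) (l := fun i => (B i).l) (r := fun i => (B i).r)
    (t := fun i => (B i).t) P (by
      intro p hp
      have h1 := hP p hp
      have h2 : 4 * (k - 1) < 4 * k - 3 := by omega
      refine lt_of_lt_of_le h2 (h1.trans (le_of_eq ?_))
      rw [← key p])
  refine ⟨fun i => (s.c i).getD ⟨0, hk⟩, ?_⟩
  intro κ p hp
  obtain ⟨f, hf, h1, h2, h3⟩ := hs p hp κ
  exact ⟨f, by simp [hf], h1, h2, h3⟩

/-- **Q1, full positive answer**: `m_k^* ≤ 4k - 3` for every `k ≥ 1`; in particular there is a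
constant `C` with `m_k^* ≤ C k` for every `k ≥ 1`. -/
theorem result :
    (∀ k : ℕ, 1 ≤ k → mStar k ≤ ((4 * k - 3 : ℕ) : ℕ∞)) ∧
      ∃ C : ℕ, ∀ k : ℕ, 1 ≤ k → mStar k ≤ ((C * k : ℕ) : ℕ∞) := by
  have h : ∀ k : ℕ, 1 ≤ k → mStar k ≤ ((4 * k - 3 : ℕ) : ℕ∞) :=
    fun k hk => iInf₂_le (4 * k - 3) (isThreshold hk)
  refine ⟨h, 4, fun k hk => (h k hk).trans ?_⟩
  exact_mod_cast Nat.sub_le _ _

end Pool.Agent.Results.MP_00bc5b_co.LinearBound
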